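import Mathlib
import Pool.Agent.H14Belt.Main

set_option autoImplicit false

open MeasureTheory Module
open scoped RealInnerProductSpace

namespace Pool.Agent.Results.MP_29fbf2_co.BeltBalance

/-- The face of `K` in direction `u`: the points of `K` that maximise the inner product
with `u`. -/
def face {d : ℕ} (K : Set (EuclideanSpace ℝ (Fin d))) (u : EuclideanSpace ℝ (Fin d)) :
    Set (EuclideanSpace ℝ (Fin d)) :=
  {x | x ∈ K ∧ ∀ y ∈ K, ⟪u, y⟫ ≤ ⟪u, x⟫}

/-- There is a tiling of the space in which every tile is a translate of `P` or a translate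
of `-P`. -/
def TilesByTranslatesAndNegatives {d : ℕ} (P : Set (EuclideanSpace ℝ (Fin d))) : Prop :=
  ∃ F : Set (Set (EuclideanSpace ℝ (Fin d))),
    (∀ T ∈ F, ∃ t : EuclideanSpace ℝ (Fin d), T = (fun x => t + x) '' P ∨ T = (fun x => t - x) '' P) ∧
    ⋃₀ F = Set.univ ∧
    ∀ A ∈ F, ∀ B ∈ F, A ≠ B → Disjoint (interior A) (interior B)

/-- **Belt balance law.** If a convex body `P` tiles by translates and negatives, then for every
orthonormal pair `u`, `v` the `(d-2)`-dimensional volumes of the iterated faces satisfy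
`g(u,v) + g(-u,-v) = g(u,-v) + g(-u,v)`. -/
theorem result {d : ℕ} (P : Set (EuclideanSpace ℝ (Fin d))) (hcompact : IsCompact P)
    (hconvex : Convex ℝ P) (hinterior : (interior P).Nonempty)
    (htiles : TilesByTranslatesAndNegatives P)
    (u v : EuclideanSpace ℝ (Fin d)) (hu : ‖u‖ = 1) (hv : ‖v‖ = 1) (huv : ⟪u, v⟫ = 0) :
    μH[(d : ℝ) - 2] (face (face P u) v) + μH[(d : ℝ) - 2] (face (face P (-u)) (-v)) =
      μH[(d : ℝ) - 2] (face (face P u) (-v)) + μH[(d : ℝ) - 2] (face (face P (-u)) v) := by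
  obtain ⟨F, hF, hcov, hdis⟩ := htiles
  have hfin : ((finrank ℝ (H14Belt.perp u v) : ℕ) : ℝ) = (d : ℝ) - 2 := by
    have h := H14Belt.finrank_perp hu hv huv
    rw [finrank_euclideanSpace_fin] at h
    have h2 : ((finrank ℝ (H14Belt.perp u v) : ℕ) : ℝ) + 2 = (d : ℝ) := by exact_mod_cast h
    linarith
  have h := H14Belt.balance hu hv huv hcompact hconvex hinterior (ι := F) (T := fun A => (A : Set _))
    (fun A => by
      obtain ⟨t, ht | ht⟩ := hF A A.2
      · exact ⟨t, 1, Or.inl rfl, by rw [ht]; congr 1; funext x; simp [H14Belt.mot]⟩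
      · exact ⟨t, -1, Or.inr rfl, by rw [ht]; congr 1; funext x; simp [H14Belt.mot, sub_eq_add_neg]⟩)
    (fun A B hAB => hdis A A.2 B B.2 (fun h => hAB (Subtype.ext h)))
    (by rw [← Set.sUnion_eq_iUnion]; exact hcov)
  rw [hfin] at h
  exact h

end Pool.Agent.Results.MP_29fbf2_co.BeltBalance
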