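import Mathlib
import Pool.Agent.EH56.Main
import Pool.Agent.EH56.Finite

set_option autoImplicit false

open MeasureTheory Module
open scoped RealInnerProductSpace

namespace Pool.Agent.Results.MP_29fbf2_co.EvenHadwiger

/-- The face of `K` in direction `w`: the points of `K` that maximise the inner product
with `w`. -/
def face {d : ℕ} (K : Set (EuclideanSpace ℝ (Fin d))) (w : EuclideanSpace ℝ (Fin d)) :
    Set (EuclideanSpace ℝ (Fin d)) :=
  {x | x ∈ K ∧ ∀ y ∈ K, ⟪w, y⟫ ≤ ⟪w, x⟫}

/-- The iterated face of `K` in the directions `w 0, w 1, ..., w (k-1)`: `K` if `k = 0`, otherwise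
the iterated face of `face K (w 0)` in the directions `w 1, ..., w (k-1)`. -/
def iteratedFace {d : ℕ} : (k : ℕ) → Set (EuclideanSpace ℝ (Fin d)) →
    (Fin k → EuclideanSpace ℝ (Fin d)) → Set (EuclideanSpace ℝ (Fin d))
  | 0, K, _ => K
  | k + 1, K, w => iteratedFace k (face K (w 0)) (fun i => w i.succ)

/-- There is a tiling of the space in which every tile is a translate of `P` or a translate
of `-P`. -/
def TilesByTranslatesAndNegatives {d : ℕ} (P : Set (EuclideanSpace ℝ (Fin d))) : Prop :=
  ∃ F : Set (Set (EuclideanSpace ℝ (Fin d))),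
    (∀ T ∈ F, ∃ t : EuclideanSpace ℝ (Fin d), T = (fun x => t + x) '' P ∨ T = (fun x => t - x) '' P) ∧
    ⋃₀ F = Set.univ ∧
    ∀ A ∈ F, ∀ B ∈ F, A ≠ B → Disjoint (interior A) (interior B)

theorem iteratedFace_eq {d k : ℕ} (K : Set (EuclideanSpace ℝ (Fin d)))
    (w : Fin k → EuclideanSpace ℝ (Fin d)) : iteratedFace k K w = EH56.iface k K w := by
  induction k generalizing K with
  | zero => rfl
  | succ k ih => exact ih (face K (w 0)) (fun i => w i.succ)

/-- **All Hadwiger invariants of even codimension vanish.** If a convex body `P` in `ℝ^d` tiles by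
translates and negatives, then for every even `k ≥ 2` and every orthonormal `u 0, ..., u (k-1)` the
`(d-k)`-dimensional volumes of the iterated faces of `P` in the directions `s i • u i`, with signs `s i`,
are finite, and the sum of those with `∏ s i = 1` is equal to the sum of those with `∏ s i = -1`. -/
theorem result {d : ℕ} (P : Set (EuclideanSpace ℝ (Fin d))) (hcompact : IsCompact P)
    (hconvex : Convex ℝ P) (hinterior : (interior P).Nonempty)
    (htiles : TilesByTranslatesAndNegatives P)
    (k : ℕ) (hk : 2 ≤ k) (heven : Even k) (u : Fin k → EuclideanSpace ℝ (Fin d)) (hu : Orthonormal ℝ u) :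
    (∀ s : Fin k → ℤˣ, μH[(d : ℝ) - k] (iteratedFace k P (fun i => s i • u i)) < ⊤) ∧
    ∑ s : {s : Fin k → ℤˣ // ∏ i, s i = 1}, μH[(d : ℝ) - k] (iteratedFace k P (fun i => s.1 i • u i)) =
      ∑ s : {s : Fin k → ℤˣ // ∏ i, s i = -1},
        μH[(d : ℝ) - k] (iteratedFace k P (fun i => s.1 i • u i)) := by
  obtain ⟨F, hF, hcov, hdis⟩ := htiles
  have hfin : ((finrank ℝ (EH56.perpK u) : ℕ) : ℝ) = (d : ℝ) - k := by
    have h := EH56.finrank_perpK hu
    rw [finrank_euclideanSpace_fin] at h
    have h2 : ((finrank ℝ (EH56.perpK u) : ℕ) : ℝ) + k = (d : ℝ) := by exact_mod_cast h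
    linarith
  have hdir : ∀ s : Fin k → ℤˣ, (fun i => s i • u i) = EH56.sdir u s := by
    intro s
    funext i
    show s i • u i = (((s i : ℤ) : ℝ)) • u i
    rw [Units.smul_def, Int.cast_smul_eq_zsmul]
  simp only [iteratedFace_eq, hdir, ← hfin]
  refine ⟨fun s => EH56.iface_finite hcompact u s, ?_⟩
  exact EH56.even_law heven (by omega) hu hcompact hconvex hinterior (ι := F) (T := fun A => (A : Set _))
    (fun A => by
      obtain ⟨t, ht | ht⟩ := hF A A.2
      · exact ⟨t, 1, Or.inl rfl, by rw [ht]; congr 1; funext x; simp [H14Belt.mot]⟩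
      · exact ⟨t, -1, Or.inr rfl, by rw [ht]; congr 1; funext x; simp [H14Belt.mot, sub_eq_add_neg]⟩)
    (fun A B hAB => hdis A A.2 B B.2 (fun h => hAB (Subtype.ext h)))
    (by rw [← Set.sUnion_eq_iUnion]; exact hcov)

end Pool.Agent.Results.MP_29fbf2_co.EvenHadwiger
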